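import Pool.Agent.N518.KT.Conway

/-!
# Commutators in the group ring of the symmetric group on three letters
-/

set_option autoImplicit false

namespace Pool.Agent.N518.KT

section

variable {Q : Type*} [Ring Q] {s t : Q}

theorem alg1 (hs : s * s = 1) (ht : t * t = 1) (hb : s * t * s = t * s * t) :
    cr (cr (cr s t) t) (cr s t) = (12 : ℤ) • t - (4 : ℤ) • (s + t + s * t * s) ∧
    cr (cr t (cr s t)) t = (-4 : ℤ) • cr s t := by
  have a1 : s * (s * t) = t := by rw [← mul_assoc, hs, one_mul]
  have a2 : s * t * t = s := by rw [mul_assoc, ht, mul_one]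
  have a3 : t * s * s = t := by rw [mul_assoc, hs, mul_one]
  have a4 : t * (t * s) = s := by rw [← mul_assoc, ht, one_mul]
  have c1 : cr (cr s t) t = (2 : ℤ) • s - (2 : ℤ) • (s * t * s) := by
    unfold cr
    have : (s * t - t * s) * t - t * (s * t - t * s) =
        s * t * t - t * s * t - (t * s * t - t * (t * s)) := by noncomm_ring
    rw [this, a2, a4, ← hb]
    module
  have c2 : cr t (cr s t) = (2 : ℤ) • (s * t * s) - (2 : ℤ) • s := by
    unfold cr
    have : t * (s * t - t * s) - (s * t - t * s) * t =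
        t * s * t - t * (t * s) - (s * t * t - t * s * t) := by noncomm_ring
    rw [this, a2, a4, ← hb]
    module
  -- products
  have w1 : s * cr s t = t - s * t * s := by
    unfold cr
    rw [mul_sub, a1, ← mul_assoc]
  have w2 : cr s t * s = s * t * s - t := by
    unfold cr
    rw [sub_mul, a3]
  have w3 : s * t * s * cr s t = s - t := by
    have : s * t * s * cr s t = s * t * (s * cr s t) := by noncomm_ring
    rw [this, w1, mul_sub, a2, hb]
    have : s * t * (t * s * t) = s * (t * t) * s * t := by noncomm_ring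
    rw [this, ht, mul_one, hs, one_mul]
  have w4 : cr s t * (s * t * s) = t - s := by
    have : cr s t * (s * t * s) = cr s t * s * (t * s) := by noncomm_ring
    rw [this, w2, sub_mul, hb]
    have e1 : t * s * t * (t * s) = t * s * (t * t) * s := by noncomm_ring
    rw [e1, ht, mul_one, a3, a4]
  have w5 : s * t * s * t = t * s := by rw [hb, mul_assoc, ht, mul_one]
  have w6 : t * (s * t * s) = s * t := by
    rw [hb]
    have : t * (t * s * t) = t * t * s * t := by noncomm_ring
    rw [this, ht, one_mul]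
  constructor
  · rw [c1]
    have : cr ((2 : ℤ) • s - (2 : ℤ) • (s * t * s)) (cr s t) =
        (2 : ℤ) • (s * cr s t) - (2 : ℤ) • (s * t * s * cr s t) -
          ((2 : ℤ) • (cr s t * s) - (2 : ℤ) • (cr s t * (s * t * s))) := by
      conv_lhs => unfold cr
      conv_rhs => unfold cr
      noncomm_ring
    rw [this, w1, w2, w3, w4]
    module
  · rw [c2]
    have : cr ((2 : ℤ) • (s * t * s) - (2 : ℤ) • s) t =
        (2 : ℤ) • (s * t * s * t) - (2 : ℤ) • (s * t) -
          ((2 : ℤ) • (t * (s * t * s)) - (2 : ℤ) • (t * s)) := by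
      unfold cr
      noncomm_ring
    rw [this, w5, w6]
    unfold cr
    module

theorem central (hs : s * s = 1) (ht : t * t = 1) (hb : s * t * s = t * s * t) :
    (s + t + s * t * s) * s = s * (s + t + s * t * s) ∧
    (s + t + s * t * s) * t = t * (s + t + s * t * s) := by
  have a3 : s * t * s * s = s * t := by rw [mul_assoc, hs, mul_one]
  have a4 : s * (s * t * s) = t * s := by
    have : s * (s * t * s) = s * s * t * s := by noncomm_ring
    rw [this, hs, one_mul]
  have w5 : s * t * s * t = t * s := by rw [hb, mul_assoc, ht, mul_one]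
  have w6 : t * (s * t * s) = s * t := by
    rw [hb]
    have : t * (t * s * t) = t * t * s * t := by noncomm_ring
    rw [this, ht, one_mul]
  constructor
  · rw [add_mul, add_mul, mul_add, mul_add, a3, a4]
    abel
  · rw [add_mul, add_mul, mul_add, mul_add, w5, w6]
    abel

/-- commutators with multiples plus central elements -/
theorem cr_central {K Z : Q} (c d : ℤ) (hK : K * Z = Z * K) :
    cr (c • t + K) (d • Z) = (c * d) • cr t Z := by
  unfold cr
  rw [add_mul, mul_add, smul_mul_smul_comm, smul_mul_smul_comm, mul_smul_comm, smul_mul_assoc, hK,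
    mul_comm d c, smul_sub]
  abel

theorem cr_neg (a b : Q) : cr a b = - cr b a := by
  unfold cr
  abel

theorem cr_smul (c : ℤ) (a b : Q) : cr (c • a) b = c • cr a b := by
  unfold cr
  rw [smul_mul_assoc, mul_smul_comm, smul_sub]

theorem cr_smul' (c : ℤ) (a b : Q) : cr a (c • b) = c • cr a b := by
  unfold cr
  rw [smul_mul_assoc, mul_smul_comm, smul_sub]

end

/-- the recursion of the leading terms: `X_0 = b`, `X_1 = [a, b]`, `X_{n+2} = [[X_{n+1}, X_n], X_{n+1}]` -/
def rec {Q : Type*} [Ring Q] (a b : Q) : ℕ → Q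
  | 0 => b
  | 1 => cr a b
  | (n + 2) => cr (cr (rec a b (n + 1)) (rec a b n)) (rec a b (n + 1))

theorem rec_map {Q Q' : Type*} [Ring Q] [Ring Q'] (f : Q →+* Q') (a b : Q) (n : ℕ) :
    f (rec a b n) = rec (f a) (f b) n := by
  have key : ∀ n, f (rec a b n) = rec (f a) (f b) n ∧
      f (rec a b (n + 1)) = rec (f a) (f b) (n + 1) := by
    intro n
    induction n with
    | zero => exact ⟨rfl, by simp [rec, cr]⟩
    | succ n ih =>
      refine ⟨ih.2, ?_⟩
      have e1 : rec a b (n + 1 + 1) = cr (cr (rec a b (n + 1)) (rec a b n)) (rec a b (n + 1)) := rfl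
      have e2 : rec (f a) (f b) (n + 1 + 1) =
        cr (cr (rec (f a) (f b) (n + 1)) (rec (f a) (f b) n)) (rec (f a) (f b) (n + 1)) := rfl
      rw [e1, e2, ← ih.1, ← ih.2]
      simp [cr]
  exact (key n).1

/-- **the leading terms are not zero**: for odd indices they are non-zero multiples of `[s, t]` -/
theorem rec_odd {Q : Type*} [Ring Q] {s t : Q} (hs : s * s = 1) (ht : t * t = 1)
    (hb : s * t * s = t * s * t) (k : ℕ) : ∃ γ : ℤ, γ ≠ 0 ∧ rec s t (2 * k + 1) = γ • cr s t := by
  obtain ⟨hc1, hc2⟩ := central hs ht hb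
  obtain ⟨ha1, ha2⟩ := alg1 hs ht hb
  have key : ∀ k : ℕ, (∃ c : ℤ, c ≠ 0 ∧ ∃ d : ℤ, rec s t (2 * k) = c • t + d • (s + t + s * t * s)) ∧
      ∃ γ : ℤ, γ ≠ 0 ∧ rec s t (2 * k + 1) = γ • cr s t := by
    intro k
    induction k with
    | zero => exact ⟨⟨1, one_ne_zero, 0, by simp [rec]⟩, ⟨1, one_ne_zero, by simp [rec]⟩⟩
    | succ k ih =>
      obtain ⟨⟨c, hc, d, h1⟩, γ, hγ, h2⟩ := ih
      have hCs : Commute (s + t + s * t * s) s := hc1
      have hCt : Commute (s + t + s * t * s) t := hc2
      have hCc : Commute (s + t + s * t * s) (cr s t) :=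
        (hCs.mul_right hCt).sub_right (hCt.mul_right hCs)
      have comm : ∀ e : ℤ, (e • (s + t + s * t * s)) * cr s t =
          cr s t * (e • (s + t + s * t * s)) := fun e => (hCc.smul_left e).eq
      have h3 : rec s t (2 * (k + 1)) = (12 * (γ ^ 2 * c)) • t +
          (-(4 * (γ ^ 2 * c))) • (s + t + s * t * s) := by
        have e1 : rec s t (2 * (k + 1)) = cr (cr (rec s t (2 * k + 1)) (rec s t (2 * k)))
          (rec s t (2 * k + 1)) := rfl
        rw [e1, h1, h2, cr_neg (γ • cr s t), cr_central c γ (comm d)]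
        have e2 : cr (-((c * γ) • cr t (cr s t))) (γ • cr s t) =
            (c * γ * γ) • cr (cr (cr s t) t) (cr s t) := by
          rw [cr_neg t, smul_neg, neg_neg, cr_smul, cr_smul', smul_smul]
        rw [e2, ha1]
        module
      have h4 : rec s t (2 * (k + 1) + 1) = (-4 * ((12 * (γ ^ 2 * c)) ^ 2 * γ)) • cr s t := by
        have e1 : rec s t (2 * (k + 1) + 1) = cr (cr (rec s t (2 * (k + 1))) (rec s t (2 * k + 1)))
          (rec s t (2 * (k + 1))) := rfl
        rw [e1, h3, h2, cr_central _ γ (comm _)]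
        set C := 12 * (γ ^ 2 * c) with hC
        set D := -(4 * (γ ^ 2 * c)) with hD
        have e2 : cr ((C * γ) • cr t (cr s t)) (C • t + D • (s + t + s * t * s)) =
            (C * γ * C) • cr (cr t (cr s t)) t := by
          rw [cr_smul, cr_neg _ (C • t + _)]
          have hcomm2 : (D • (s + t + s * t * s)) * cr t (cr s t) =
              cr t (cr s t) * (D • (s + t + s * t * s)) :=
            (((hCt.mul_right hCc).sub_right (hCc.mul_right hCt)).smul_left D).eq
          have e3 := cr_central (t := t) C 1 hcomm2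
          rw [one_smul, mul_one] at e3
          rw [e3, ← smul_neg, ← cr_neg, smul_smul]
        rw [e2, ha2]
        module
      refine ⟨⟨_, ?_, _, h3⟩, _, ?_, h4⟩
      · positivity
      · have : (12 * (γ ^ 2 * c)) ≠ 0 := by positivity
        positivity
  exact (key k).2

/-- the iterated commutator `[a, [a, ⋯ [a, b]]]` -/
def adr {Q : Type*} [Ring Q] (a b : Q) : ℕ → Q
  | 0 => b
  | (n + 1) => cr a (adr a b n)

theorem adr_map {Q Q' : Type*} [Ring Q] [Ring Q'] (f : Q →+* Q') (a b : Q) (n : ℕ) :
    f (adr a b n) = adr (f a) (f b) n := by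
  induction n with
  | zero => rfl
  | succ n ih => simp [adr, cr, ← ih]

theorem adr_odd {Q : Type*} [Ring Q] {s t : Q} (hs : s * s = 1) (k : ℕ) :
    adr s t (2 * k + 1) = ((4 : ℤ) ^ k) • cr s t := by
  induction k with
  | zero => simp [adr]
  | succ k ih =>
    have e1 : adr s t (2 * (k + 1) + 1) = cr s (cr s (adr s t (2 * k + 1))) := rfl
    rw [e1, ih, cr_smul', cr_smul']
    have e2 : cr s (cr s (cr s t)) = (4 : ℤ) • cr s t := by
      unfold cr
      have : s * (s * (s * t - t * s) - (s * t - t * s) * s) -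
          (s * (s * t - t * s) - (s * t - t * s) * s) * s =
          (s * s) * (s * t) - (s * s) * (t * s) - (s * s) * (t * s) + s * t * (s * s)
            - ((s * s) * (t * s) - s * t * (s * s) - (s * t * (s * s)) + t * (s * s) * s) := by
        noncomm_ring
      rw [this, hs]
      noncomm_ring
    rw [e2, smul_smul, pow_succ]

end Pool.Agent.N518.KT
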