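import Mathlib

/-!
# Leading terms of commutators in filtered rings
-/

set_option autoImplicit false

namespace Pool.Agent.N518.KT

/-- the commutator `g k g⁻¹ k⁻¹` -/
def cm {G : Type*} [Group G] (g k : G) : G := g * k * g⁻¹ * k⁻¹

section

variable {G R : Type*} [Group G] [Ring R] (ι : G →* R) (T : ℕ → Submodule ℤ R)

/-- a decreasing multiplicative filtration, such that the group is in degree `0` -/
structure Filt : Prop where
  anti : ∀ k, T (k + 1) ≤ T k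
  mul : ∀ k l a b, a ∈ T k → b ∈ T l → a * b ∈ T (k + l)
  mem : ∀ g, ι g ∈ T 0

/-- `ι g = 1 + A + terms of degree at least p + 1` -/
def Lead (p : ℕ) (A : R) (g : G) : Prop := A ∈ T p ∧ ι g - 1 - A ∈ T (p + 1)

variable {ι T}

theorem Filt.le (h : Filt ι T) {k l : ℕ} (hkl : k ≤ l) : T l ≤ T k := by
  induction hkl with
  | refl => exact le_rfl
  | step _ ih => exact (h.anti _).trans ih

theorem Filt.one (h : Filt ι T) : (1 : R) ∈ T 0 := by
  have := h.mem 1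
  rwa [map_one] at this

theorem Filt.left (h : Filt ι T) {k : ℕ} {a b : R} (ha : a ∈ T 0) (hb : b ∈ T k) :
    a * b ∈ T k := by
  have := h.mul 0 k a b ha hb
  rwa [zero_add] at this

theorem Filt.right (h : Filt ι T) {k : ℕ} {a b : R} (ha : a ∈ T k) (hb : b ∈ T 0) :
    a * b ∈ T k := h.mul k 0 a b ha hb

theorem Lead.diff (h : Filt ι T) {p : ℕ} {A : R} {g : G} (hg : Lead ι T p A g) :
    ι g - 1 ∈ T p := by
  have := (T p).add_mem (h.anti _ hg.2) hg.1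
  rwa [sub_add_cancel] at this

theorem Lead.mul (h : Filt ι T) {p : ℕ} (hp : 1 ≤ p) {A B : R} {g k : G} (hg : Lead ι T p A g)
    (hk : Lead ι T p B k) : Lead ι T p (A + B) (g * k) := by
  refine ⟨(T p).add_mem hg.1 hk.1, ?_⟩
  have e : ι (g * k) - 1 - (A + B) =
      (ι g - 1) * (ι k - 1) + ((ι g - 1 - A) + (ι k - 1 - B)) := by
    rw [map_mul]
    noncomm_ring
  rw [e]
  refine (T _).add_mem ?_ ((T _).add_mem hg.2 hk.2)
  exact h.le (by omega) (h.mul p p _ _ (hg.diff h) (hk.diff h))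

theorem Lead.one (h : Filt ι T) (p : ℕ) : Lead ι T p 0 (1 : G) :=
  ⟨(T p).zero_mem, by rw [map_one, sub_self, sub_zero]; exact (T _).zero_mem⟩

theorem Lead.inv (h : Filt ι T) {p : ℕ} (hp : 1 ≤ p) {A : R} {g : G} (hg : Lead ι T p A g) :
    Lead ι T p (-A) g⁻¹ := by
  refine ⟨(T p).neg_mem hg.1, ?_⟩
  have e0 : ι g⁻¹ * ι g = 1 := by rw [← map_mul, inv_mul_cancel, map_one]
  have e1 : ι g⁻¹ - 1 = -(ι g⁻¹ * (ι g - 1)) := by
    rw [mul_sub, e0, mul_one, neg_sub]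
  have h1 : ι g⁻¹ - 1 ∈ T p := by
    rw [e1]
    exact (T p).neg_mem (h.left (h.mem _) (hg.diff h))
  have e2 : ι g⁻¹ - 1 - -A = -((ι g⁻¹ - 1) * (ι g - 1)) - (ι g - 1 - A) := by
    have : (ι g⁻¹ - 1) * (ι g - 1) = 1 + 1 - ι g⁻¹ - ι g := by
      rw [sub_mul, mul_sub, e0]
      noncomm_ring
    rw [this]
    noncomm_ring
  rw [e2]
  exact (T _).sub_mem ((T _).neg_mem (h.le (by omega) (h.mul p p _ _ h1 (hg.diff h)))) hg.2

theorem Lead.npow (h : Filt ι T) {p : ℕ} (hp : 1 ≤ p) {A : R} {g : G} (hg : Lead ι T p A g)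
    (n : ℕ) : Lead ι T p ((n : ℤ) • A) (g ^ n) := by
  induction n with
  | zero => simpa using Lead.one h p
  | succ n ih =>
    rw [pow_succ]
    have := ih.mul h hp hg
    push_cast
    rwa [add_smul, one_smul]

theorem Lead.zpow (h : Filt ι T) {p : ℕ} (hp : 1 ≤ p) {A : R} {g : G} (hg : Lead ι T p A g)
    (q : ℤ) : Lead ι T p (q • A) (g ^ q) := by
  obtain ⟨n, rfl | rfl⟩ := q.eq_nat_or_neg
  · rw [zpow_natCast]
    exact hg.npow h hp n
  · rw [zpow_neg, zpow_natCast, neg_smul]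
    exact (hg.npow h hp n).inv h hp

theorem Lead.comm (h : Filt ι T) {p q : ℕ} (hp : 1 ≤ p) (hq : 1 ≤ q) {A B : R} {g k : G}
    (hg : Lead ι T p A g) (hk : Lead ι T q B k) :
    Lead ι T (p + q) (A * B - B * A) (cm g k) := by
  refine ⟨(T _).sub_mem (h.mul p q _ _ hg.1 hk.1) ?_, ?_⟩
  · have := h.mul q p _ _ hk.1 hg.1
    rwa [add_comm] at this
  have hi : ι (g⁻¹ * k⁻¹) - 1 ∈ T 1 := by
    have h1 := (hg.inv h hp).diff h
    have h2 := (hk.inv h hq).diff h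
    have e : ι (g⁻¹ * k⁻¹) - 1 = (ι g⁻¹ - 1) * ι k⁻¹ + (ι k⁻¹ - 1) := by
      rw [map_mul, sub_mul, one_mul]
      abel
    rw [e]
    exact (T _).add_mem (h.right (h.le hp h1) (h.mem _)) (h.le hq h2)
  have e0 : ι (cm g k) - 1 = (ι g * ι k - ι k * ι g) * ι (g⁻¹ * k⁻¹) := by
    rw [cm, ← map_mul, ← map_mul, sub_mul, ← map_mul, ← map_mul]
    have e1 : g * k * (g⁻¹ * k⁻¹) = g * k * g⁻¹ * k⁻¹ := by group
    have e2 : k * g * (g⁻¹ * k⁻¹) = 1 := by group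
    rw [e1, e2, map_one]
  have e3 : ι g * ι k - ι k * ι g = (A * B - B * A) +
      (A * (ι k - 1 - B) + (ι g - 1 - A) * (ι k - 1) -
        (B * (ι g - 1 - A) + (ι k - 1 - B) * (ι g - 1))) := by
    noncomm_ring
  set E := A * (ι k - 1 - B) + (ι g - 1 - A) * (ι k - 1) -
        (B * (ι g - 1 - A) + (ι k - 1 - B) * (ι g - 1)) with hE
  have hE' : E ∈ T (p + q + 1) := by
    refine (T _).sub_mem ((T _).add_mem ?_ ?_) ((T _).add_mem ?_ ?_)
    · exact h.mul p (q + 1) _ _ hg.1 hk.2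
    · exact h.le (by omega) (h.mul (p + 1) q _ _ hg.2 (hk.diff h))
    · exact h.le (by omega) (h.mul q (p + 1) _ _ hk.1 hg.2)
    · exact h.le (by omega) (h.mul (q + 1) p _ _ hk.2 (hg.diff h))
  have hC : A * B - B * A ∈ T (p + q) := by
    refine (T _).sub_mem (h.mul p q _ _ hg.1 hk.1) ?_
    have := h.mul q p _ _ hk.1 hg.1
    rwa [add_comm] at this
  have e4 : ι (cm g k) - 1 - (A * B - B * A) =
      (A * B - B * A) * (ι (g⁻¹ * k⁻¹) - 1) + E * ι (g⁻¹ * k⁻¹) := by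
    rw [e0, e3]
    noncomm_ring
  rw [e4]
  exact (T _).add_mem (h.mul (p + q) 1 _ _ hC hi) (h.right hE' (h.mem _))

theorem Lead.congr {p : ℕ} {A B : R} {g : G} (hg : Lead ι T p A g) (e : A = B) :
    Lead ι T p B g := e ▸ hg

/-- conjugation does not change the leading term -/
theorem Lead.conj (h : Filt ι T) {p : ℕ} {A : R} {g x : G} (hg : Lead ι T p A g)
    (hx : ι x - 1 ∈ T 1) : Lead ι T p A (x * g * x⁻¹) := by
  refine ⟨hg.1, ?_⟩
  have ex : ι x * ι x⁻¹ = 1 := by rw [← map_mul, mul_inv_cancel, map_one]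
  have hx' : ι x⁻¹ - 1 ∈ T 1 := by
    have e1 : ι x⁻¹ - 1 = -((ι x - 1) * ι x⁻¹) := by
      rw [sub_mul, ex, one_mul, neg_sub]
    rw [e1]
    exact (T _).neg_mem (h.right hx (h.mem _))
  have e : ι (x * g * x⁻¹) - 1 - A = ι x * (ι g - 1 - A) * ι x⁻¹ +
      ((ι x - 1) * A * ι x⁻¹ + A * (ι x⁻¹ - 1)) := by
    rw [map_mul, map_mul]
    have : ι x * (ι g - 1 - A) * ι x⁻¹ = ι x * ι g * ι x⁻¹ - ι x * ι x⁻¹ - ι x * A * ι x⁻¹ := by
      noncomm_ring
    rw [this, ex]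
    noncomm_ring
  rw [e]
  refine (T _).add_mem (h.right (h.left (h.mem _) hg.2) (h.mem _)) ((T _).add_mem ?_ ?_)
  · have := h.right (h.mul 1 p _ _ hx hg.1) (h.mem x⁻¹)
    rwa [add_comm] at this
  · exact h.mul p 1 _ _ hg.1 hx'

end

end Pool.Agent.N518.KT
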