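import Pool.Agent.V11208.FT.Inv
import Pool.Agent.N518.KT.Lead

/-!
# Vassiliev invariants of closed braids and the group ring of the free group
-/

set_option autoImplicit false

namespace Pool.Agent.N518.KT

open Pool.Agent.V11208.FT

/-- Oriented knots: braid words whose closure has one component, modulo the equivalence relation
generated by the braid relations, conjugation and stabilization (Markov). -/
abbrev Knot : Type := Link 1

/-- The closure of the braid word is a knot: its permutation is one cycle. -/
def IsKnot {n : ℕ} (w : Word n) : Prop := Closes w (fun _ => (0 : Fin 1))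

/-- The knot which is the closure of the braid word. -/
def closure {n : ℕ} (w : Word n) (h : IsKnot w) : Knot := Quot.mk _ ⟨n, w, fun _ => 0, h⟩

open Classical in
/-- The value of a knot invariant on the closure of a braid word (`0` if it is not a knot). -/
noncomputable def val {A : Type*} [Zero A] (v : Knot → A) {n : ℕ} (w : Word n) : A :=
  if h : IsKnot w then v (closure w h) else 0

/-- The knot invariant `v` is a Vassiliev invariant of order at most `N`: its extension to singular
braid words, by the rule `v(double point) = v(positive crossing) - v(negative crossing)`, vanishes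
on all singular braid words with more than `N` double points (whose closure is a singular knot). -/
def DegreeLE {A : Type*} [AddCommGroup A] (N : ℕ) (v : Knot → A) : Prop :=
  ∀ (n : ℕ) (S : SWord n), N < doublePoints S → res (val v) S = 0

theorem isKnot_congr {n : ℕ} {w w' : Word n} (h : perm w = perm w') : IsKnot w ↔ IsKnot w' :=
  closes_iff _ w w' h

theorem val_of {A : Type*} [Zero A] (v : Knot → A) {n : ℕ} {w : Word n} (h : IsKnot w) :
    val v w = v (closure w h) := by
  rw [val, dif_pos h]

theorem val_cancel {A : Type*} [Zero A] (v : Knot → A) {n : ℕ} (u w : Word n) (i : Fin n)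
    (e : Bool) : val v (u ++ (i, e) :: (i, !e) :: w) = val v (u ++ w) := by
  have hp : perm (u ++ (i, e) :: (i, !e) :: w) = perm (u ++ w) := perm_cancel u w i e (!e)
  by_cases h : IsKnot (u ++ w)
  · have h' : IsKnot (u ++ (i, e) :: (i, !e) :: w) := (isKnot_congr hp).2 h
    rw [val_of v h, val_of v h']
    exact congrArg v (Quot.sound (Move.cancel n u w i e _ h' h))
  · have h' : ¬ IsKnot (u ++ (i, e) :: (i, !e) :: w) := fun h1 => h ((isKnot_congr hp).1 h1)
    rw [val, dif_neg h', val, dif_neg h]

/-- a function of braid words which respects cancellation, as a function on the free group -/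
def lft {M : Type*} {n : ℕ} (f : Word n → M)
    (hf : ∀ u w i e, f (u ++ (i, e) :: (i, !e) :: w) = f (u ++ w)) : FreeGroup (Fin n) → M :=
  Quot.lift f (by rintro _ _ ⟨⟩; exact hf _ _ _ _)

/-- the group ring -/
abbrev GR (n : ℕ) : Type := MonoidAlgebra ℤ (FreeGroup (Fin n))

/-- the group in the group ring -/
noncomputable abbrev io (n : ℕ) : FreeGroup (Fin n) →* GR n := MonoidAlgebra.of ℤ (FreeGroup (Fin n))

/-- the element of a singular braid word -/
noncomputable def rho {n : ℕ} : SWord n → GR n
  | [] => 1
  | (i, some e) :: S => io n (FreeGroup.mk [(i, e)]) * rho S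
  | (i, none) :: S =>
      (io n (FreeGroup.mk [(i, true)]) - io n (FreeGroup.mk [(i, false)])) * rho S

theorem rho_append {n : ℕ} (S S' : SWord n) : rho (S ++ S') = rho S * rho S' := by
  induction S with
  | nil => simp [rho]
  | cons l S ih =>
    obtain ⟨i, e⟩ := l
    rcases e with _ | e <;> simp only [List.cons_append, rho, ih, mul_assoc]

/-- the filtration by the number of double points -/
noncomputable def Tf (n : ℕ) (k : ℕ) : Submodule ℤ (GR n) :=
  Submodule.span ℤ {a | ∃ S : SWord n, k ≤ doublePoints S ∧ a = rho S}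

theorem dp_append {n : ℕ} (S S' : SWord n) :
    doublePoints (S ++ S') = doublePoints S + doublePoints S' := by
  simp [doublePoints]

theorem io_word {n : ℕ} (L : Word n) :
    ∃ S : SWord n, doublePoints S = 0 ∧ io n (FreeGroup.mk L) = rho S := by
  induction L with
  | nil => exact ⟨[], rfl, by rw [rho, ← FreeGroup.one_eq_mk, map_one]⟩
  | cons l L ih =>
    obtain ⟨S, h1, h2⟩ := ih
    refine ⟨(l.1, some l.2) :: S, ?_, ?_⟩
    · simpa [doublePoints] using h1
    · rw [rho, ← h2, ← map_mul, FreeGroup.mul_mk]
      rfl

theorem filt (n : ℕ) : Filt (io n) (Tf n) where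
  anti k := Submodule.span_mono fun a ⟨S, h, e⟩ => ⟨S, by omega, e⟩
  mul k l a b ha hb := by
    have h : Tf n k * Tf n l ≤ Tf n (k + l) := by
      unfold Tf
      rw [Submodule.span_mul_span]
      refine Submodule.span_mono ?_
      rintro _ ⟨_, ⟨S, h1, rfl⟩, _, ⟨S', h2, rfl⟩, rfl⟩
      exact ⟨S ++ S', by rw [dp_append]; omega, by rw [rho_append]⟩
    exact h (Submodule.mul_mem_mul ha hb)
  mem g := by
    induction g using Quot.inductionOn with
    | h L =>
      obtain ⟨S, h1, h2⟩ := io_word L
      exact Submodule.subset_span ⟨S, Nat.zero_le _, h2⟩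

/-- the additive extension of a function on the group -/
noncomputable def ext {M : Type*} [AddCommGroup M] {n : ℕ} (f : FreeGroup (Fin n) → M) :
    GR n →+ M :=
  (Finsupp.liftAddHom fun g => (smulAddHom ℤ M).flip (f g)).comp
    (MonoidAlgebra.coeffAddEquiv (R := ℤ) (M := FreeGroup (Fin n))).toAddMonoidHom

theorem ext_io {M : Type*} [AddCommGroup M] {n : ℕ} (f : FreeGroup (Fin n) → M)
    (g : FreeGroup (Fin n)) : ext f (io n g) = f g := by
  have e : (MonoidAlgebra.coeffAddEquiv (R := ℤ) (M := FreeGroup (Fin n))) (io n g) =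
      Finsupp.single g 1 := rfl
  unfold ext
  rw [AddMonoidHom.comp_apply]
  show (Finsupp.liftAddHom fun g => (smulAddHom ℤ M).flip (f g))
    ((MonoidAlgebra.coeffAddEquiv (R := ℤ) (M := FreeGroup (Fin n))) (io n g)) = _
  rw [e, Finsupp.liftAddHom_apply_single]
  simp

theorem ext_res {M : Type*} [AddCommGroup M] {n : ℕ} (f : Word n → M)
    (hf : ∀ u w i e, f (u ++ (i, e) :: (i, !e) :: w) = f (u ++ w)) (S : SWord n) (u : Word n) :
    ext (lft f hf) (io n (FreeGroup.mk u) * rho S) = res (fun w => f (u ++ w)) S := by
  induction S generalizing u with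
  | nil =>
    rw [rho, mul_one, ext_io, res, List.append_nil]
    rfl
  | cons l S ih =>
    obtain ⟨i, e⟩ := l
    have key : ∀ b : Bool, io n (FreeGroup.mk u) * (io n (FreeGroup.mk [(i, b)]) * rho S) =
        io n (FreeGroup.mk (u ++ [(i, b)])) * rho S := by
      intro b
      rw [← mul_assoc, ← map_mul, FreeGroup.mul_mk]
    rcases e with _ | e
    · have h1 := ih (u ++ [(i, true)])
      have h2 := ih (u ++ [(i, false)])
      simp only [List.append_assoc, List.singleton_append] at h1 h2
      simp only [res]
      rw [rho, sub_mul, mul_sub, key, key, map_sub, ← h1, ← h2]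
    · have h1 := ih (u ++ [(i, e)])
      simp only [List.append_assoc, List.singleton_append] at h1
      simp only [res]
      rw [rho, key, ← h1]

/-- the invariant on the free group -/
noncomputable def vG {A : Type*} [AddCommGroup A] (v : Knot → A) (n : ℕ) :
    FreeGroup (Fin n) → A := lft (val v) (val_cancel v)

theorem vG_mk {A : Type*} [AddCommGroup A] (v : Knot → A) {n : ℕ} (w : Word n) :
    vG v n (FreeGroup.mk w) = val v w := rfl

/-- invariants of order at most `N` vanish on terms with more than `N` double points -/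
theorem ext_zero {A : Type*} [AddCommGroup A] {N : ℕ} {v : Knot → A} (hv : DegreeLE N v) {n : ℕ}
    {a : GR n} (ha : a ∈ Tf n (N + 1)) : ext (vG v n) a = 0 := by
  unfold Tf at ha
  induction ha using Submodule.span_induction with
  | mem x hx =>
    obtain ⟨S, h1, rfl⟩ := hx
    have h2 := ext_res (val v) (val_cancel v) S []
    rw [← FreeGroup.one_eq_mk, map_one, one_mul] at h2
    rw [vG, h2]
    exact hv n S (by omega)
  | zero => rw [map_zero]
  | add x y _ _ hx hy => rw [map_add, hx, hy, add_zero]
  | smul c x _ hx => rw [map_zsmul, hx, smul_zero]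

/-- **leading terms and invariants** -/
theorem lead_val {A : Type*} [AddCommGroup A] {p : ℕ} {v : Knot → A} (hv : DegreeLE p v) {n : ℕ}
    {X : GR n} {g : FreeGroup (Fin n)} (hg : Lead (io n) (Tf n) p X g) (b : FreeGroup (Fin n)) :
    vG v n (b * g) - vG v n b = ext (vG v n) (io n b * X) := by
  have h1 : ext (vG v n) (io n b * (io n g - 1 - X)) = 0 :=
    ext_zero hv ((filt n).left ((filt n).mem b) hg.2)
  rw [mul_sub, mul_sub, mul_one, ← map_mul, map_sub, map_sub, ext_io, ext_io] at h1
  exact sub_eq_zero.1 h1

theorem lead_val_lt {A : Type*} [AddCommGroup A] {p N : ℕ} {v : Knot → A} (hv : DegreeLE N v)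
    (hN : N < p) {n : ℕ}
    {X : GR n} {g : FreeGroup (Fin n)} (hg : Lead (io n) (Tf n) p X g) (b : FreeGroup (Fin n)) :
    vG v n (b * g) = vG v n b := by
  have h1 : ext (vG v n) (io n b * (io n g - 1)) = 0 :=
    ext_zero hv ((filt n).le hN ((filt n).left ((filt n).mem b) (hg.diff (filt n))))
  rw [mul_sub, mul_one, ← map_mul, map_sub, ext_io, ext_io] at h1
  exact sub_eq_zero.1 h1

/-! ### pure generators -/

/-- the square of a generator -/
def sq {n : ℕ} (i : Fin n) : FreeGroup (Fin n) := FreeGroup.mk [(i, true), (i, true)]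

/-- the leading term -/
noncomputable def sqX {n : ℕ} (i : Fin n) : GR n := rho [(i, some true), (i, none)]

theorem lead_sq {n : ℕ} (i : Fin n) : Lead (io n) (Tf n) 1 (sqX i) (sq i) := by
  refine ⟨Submodule.subset_span ⟨_, by simp [doublePoints], rfl⟩, ?_⟩
  have e : io n (sq i) - 1 - sqX i = 0 := by
    unfold sqX
    rw [rho, rho, rho, mul_one, mul_sub, ← map_mul, ← map_mul, FreeGroup.mul_mk,
      FreeGroup.mul_mk]
    have e1 : (FreeGroup.mk ([(i, true)] ++ [(i, false)]) : FreeGroup (Fin n)) = 1 := by
      have := FreeGroup.inv_mk (L := [(i, true)])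
      have h2 : (FreeGroup.mk [(i, false)] : FreeGroup (Fin n)) = (FreeGroup.mk [(i, true)])⁻¹ := by
        rw [this]; rfl
      rw [← FreeGroup.mul_mk, h2, mul_inv_cancel]
    rw [e1, map_one]
    unfold sq
    simp
  rw [e]
  exact (Tf n 2).zero_mem

end Pool.Agent.N518.KT
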