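import Pool.Agent.N518.KT.Base

/-!
# The Conway polynomial of leading terms
-/

set_option autoImplicit false

namespace Pool.Agent.N518.KT

open Pool.Agent.V11208.FT

theorem cn_cancel {n : ℕ} (u w : Word n) (i : Fin n) (e : Bool) :
    conw (u ++ (i, e) :: (i, !e) :: w) = conw (u ++ w) := nab_cancel sU u w i e

/-- the Conway power series on the group -/
noncomputable def cG (n : ℕ) : FreeGroup (Fin n) → PowerSeries ℂ := lft conw cn_cancel

theorem cG_mk {n : ℕ} (w : Word n) : cG n (FreeGroup.mk w) = conw w := rfl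

/-- the linear extension -/
noncomputable def HH (n : ℕ) : GR n →+ PowerSeries ℂ := ext (cG n)

theorem HH_io {n : ℕ} (g : FreeGroup (Fin n)) : HH n (io n g) = cG n g := ext_io _ _

theorem HH_rho {n : ℕ} (S : SWord n) (u : Word n) :
    HH n (io n (FreeGroup.mk u) * rho S) = zz ^ doublePoints S * conw (u ++ smooth S) := by
  rw [HH, cG, ext_res, res_conw]

theorem HH_Tf {n k : ℕ} {a : GR n} (ha : a ∈ Tf n k) : (PowerSeries.X : PowerSeries ℂ) ^ k ∣ HH n a := by
  unfold Tf at ha
  induction ha using Submodule.span_induction with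
  | mem x hx =>
    obtain ⟨S, h1, rfl⟩ := hx
    have h2 := HH_rho S []
    rw [← FreeGroup.one_eq_mk, map_one, one_mul] at h2
    rw [h2]
    exact dvd_mul_of_dvd_left ((pow_dvd_pow _ h1).trans (pow_dvd_pow_of_dvd X_dvd_zz _)) _
  | zero => rw [map_zero]; exact dvd_zero _
  | add x y _ _ hx hy => rw [map_add]; exact dvd_add hx hy
  | smul c x _ hx => rw [map_zsmul]; exact dvd_smul_of_dvd c hx

/-- induction over the two outer factors -/
theorem two_sided {n : ℕ} {M : Type*} [AddCommGroup M] (f g : GR n → GR n → M)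
    (hf1 : ∀ u u' w, f (u + u') w = f u w + f u' w) (hf2 : ∀ u w w', f u (w + w') = f u w + f u w')
    (hf3 : ∀ (r : ℤ) u w, f (r • u) w = r • f u w) (hf4 : ∀ (r : ℤ) u w, f u (r • w) = r • f u w)
    (hg1 : ∀ u u' w, g (u + u') w = g u w + g u' w) (hg2 : ∀ u w w', g u (w + w') = g u w + g u w')
    (hg3 : ∀ (r : ℤ) u w, g (r • u) w = r • g u w) (hg4 : ∀ (r : ℤ) u w, g u (r • w) = r • g u w)
    (h : ∀ a b : Word n, f (io n (FreeGroup.mk a)) (io n (FreeGroup.mk b)) =
      g (io n (FreeGroup.mk a)) (io n (FreeGroup.mk b))) (u w : GR n) : f u w = g u w := by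
  induction u using MonoidAlgebra.induction_on with
  | of x =>
    induction w using MonoidAlgebra.induction_on with
    | of y =>
      induction x using Quot.inductionOn with
      | h a =>
        induction y using Quot.inductionOn with
        | h b => exact h a b
    | add x y hx hy => rw [hf2, hg2, hx, hy]
    | smul r x hx => rw [hf4, hg4, hx]
  | add x y hx hy => rw [hf1, hg1, hx, hy]
  | smul r x hx => rw [hf3, hg3, hx]

/-- a generator -/
noncomputable def sg {n : ℕ} (i : Fin n) : GR n := io n (FreeGroup.mk [(i, true)])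

theorem HH_skein {n : ℕ} (i : Fin n) (u w : GR n) :
    HH n (u * (sg i - io n (FreeGroup.mk [(i, false)])) * w) = zz * HH n (u * w) := by
  refine two_sided (fun u w => HH n (u * (sg i - io n (FreeGroup.mk [(i, false)])) * w))
    (fun u w => zz * HH n (u * w)) ?_ ?_ ?_ ?_ ?_ ?_ ?_ ?_ ?_ u w
  · intro u u' w; simp only [add_mul, map_add]
  · intro u w w'; simp only [mul_add, map_add]
  · intro r u w; simp only [smul_mul_assoc, map_zsmul]
  · intro r u w; simp only [mul_smul_comm, map_zsmul]
  · intro u u' w; simp only [add_mul, map_add, mul_add]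
  · intro u w w'; simp only [mul_add, map_add]
  · intro r u w; simp only [smul_mul_assoc, map_zsmul, mul_smul_comm]
  · intro r u w; simp only [mul_smul_comm, map_zsmul]
  · intro a b
    show HH n (_ * _ * _) = zz * HH n (_ * _)
    unfold sg
    rw [mul_sub, sub_mul, ← map_mul, ← map_mul, ← map_mul, ← map_mul, ← map_mul, map_sub, HH_io,
      HH_io, HH_io, FreeGroup.mul_mk, FreeGroup.mul_mk, FreeGroup.mul_mk, FreeGroup.mul_mk,
      FreeGroup.mul_mk, cG_mk, cG_mk, cG_mk]
    have := conw_skein a b i
    simpa using this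

theorem HH_braid {n : ℕ} (i j : Fin n) (hij : (i : ℕ) + 1 = j) (u w : GR n) :
    HH n (u * (sg i * sg j * sg i) * w) = HH n (u * (sg j * sg i * sg j) * w) := by
  refine two_sided (fun u w => HH n (u * (sg i * sg j * sg i) * w))
    (fun u w => HH n (u * (sg j * sg i * sg j) * w)) ?_ ?_ ?_ ?_ ?_ ?_ ?_ ?_ ?_ u w
  · intro u u' w; simp only [add_mul, map_add]
  · intro u w w'; simp only [mul_add, map_add]
  · intro r u w; simp only [smul_mul_assoc, map_zsmul]
  · intro r u w; simp only [mul_smul_comm, map_zsmul]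
  · intro u u' w; simp only [add_mul, map_add]
  · intro u w w'; simp only [mul_add, map_add]
  · intro r u w; simp only [smul_mul_assoc, map_zsmul]
  · intro r u w; simp only [mul_smul_comm, map_zsmul]
  · intro a b
    show HH n (_ * _ * _) = HH n (_ * _ * _)
    unfold sg
    simp only [← map_mul, HH_io, FreeGroup.mul_mk, cG_mk]
    have := nab_braid sU a b i j hij
    simpa [conw] using this

/-- `X` is equivalent to `z ^ d Y` for the Conway polynomial -/
def Rel {n : ℕ} (d : ℕ) (X Y : GR n) : Prop :=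
  ∀ u w, HH n (u * X * w) = zz ^ d * HH n (u * Y * w)

theorem Rel.mul {n d e : ℕ} {X Y X' Y' : GR n} (h : Rel d X Y) (h' : Rel e X' Y') :
    Rel (d + e) (X * X') (Y * Y') := by
  intro u w
  have e1 : u * (X * X') * w = u * X * (X' * w) := by noncomm_ring
  have e2 : u * Y * (X' * w) = (u * Y) * X' * w := by noncomm_ring
  have e3 : u * (Y * Y') * w = (u * Y) * Y' * w := by noncomm_ring
  rw [e1, h, e2, h', e3, pow_add, mul_assoc (zz ^ d)]

theorem Rel.sub {n d : ℕ} {X Y X' Y' : GR n} (h : Rel d X Y) (h' : Rel d X' Y') :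
    Rel d (X - X') (Y - Y') := by
  intro u w
  simp only [mul_sub, sub_mul, map_sub]
  rw [h, h']

/-- commutator in the ring -/
def cr {R : Type*} [Ring R] (a b : R) : R := a * b - b * a

theorem Rel.cr {n d e : ℕ} {X Y X' Y' : GR n} (h : Rel d X Y) (h' : Rel e X' Y') :
    Rel (d + e) (cr X X') (cr Y Y') := by
  refine (h.mul h').sub ?_
  rw [add_comm]
  exact h'.mul h

theorem rel_sq {n : ℕ} (i : Fin n) : Rel 1 (sqX i) (sg i) := by
  intro u w
  unfold sqX
  rw [rho, rho, rho, mul_one, pow_one]
  have e : u * (io n (FreeGroup.mk [(i, true)]) * (io n (FreeGroup.mk [(i, true)]) -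
      io n (FreeGroup.mk [(i, false)]))) * w = (u * sg i) * (sg i -
      io n (FreeGroup.mk [(i, false)])) * w := by
    unfold sg
    noncomm_ring
  rw [e, HH_skein]

/-! ### the constant coefficient -/

/-- the constant coefficient -/
noncomputable def h0 (n : ℕ) : GR n →+ ℂ :=
  (PowerSeries.constantCoeff (R := ℂ)).toAddMonoidHom.comp (HH n)

theorem h0_apply {n : ℕ} (a : GR n) : h0 n a = PowerSeries.constantCoeff (R := ℂ) (HH n a) := rfl

theorem zz_zero : PowerSeries.constantCoeff (R := ℂ) zz = 0 := PowerSeries.X_dvd_iff.1 X_dvd_zz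

theorem sg_inv {n : ℕ} (i : Fin n) : sg i * io n (FreeGroup.mk [(i, false)]) = 1 := by
  unfold sg
  rw [← map_mul]
  have h2 : (FreeGroup.mk [(i, false)] : FreeGroup (Fin n)) = (FreeGroup.mk [(i, true)])⁻¹ := by
    rw [FreeGroup.inv_mk]; rfl
  rw [h2, mul_inv_cancel, map_one]

theorem h0_sq {n : ℕ} (i : Fin n) (u w : GR n) : h0 n (u * (sg i * sg i) * w) = h0 n (u * 1 * w) := by
  have h1 := HH_skein i (u * sg i) w
  have e : u * sg i * (sg i - io n (FreeGroup.mk [(i, false)])) * w =
      u * (sg i * sg i) * w - u * 1 * w := by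
    rw [mul_sub, mul_assoc u (sg i) (io n _), sg_inv]
    noncomm_ring
  rw [e, map_sub] at h1
  have h2 := congrArg (PowerSeries.constantCoeff (R := ℂ)) h1
  rw [map_sub, map_mul (PowerSeries.constantCoeff (R := ℂ)) zz, zz_zero, zero_mul] at h2
  exact sub_eq_zero.1 h2

/-- the congruence -/
noncomputable def con (n : ℕ) : RingCon (GR n) where
  r a b := ∀ u w, h0 n (u * a * w) = h0 n (u * b * w)
  iseqv := ⟨fun _ _ _ => rfl, fun h u w => (h u w).symm, fun h h' u w => (h u w).trans (h' u w)⟩
  add' := by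
    intro a b c d h h' u w
    simp only [mul_add, add_mul, map_add]
    rw [h, h']
  mul' := by
    intro a b c d h h' u w
    have e1 : u * (a * c) * w = u * a * (c * w) := by noncomm_ring
    have e2 : u * b * (c * w) = (u * b) * c * w := by noncomm_ring
    have e3 : u * (b * d) * w = (u * b) * d * w := by noncomm_ring
    rw [e1, h, e2, h', e3]

theorem con_iff {n : ℕ} {a b : GR n} : (con n).mk' a = (con n).mk' b ↔
    ∀ u w, h0 n (u * a * w) = h0 n (u * b * w) := by
  constructor
  · intro h
    exact (RingCon.eq (con n)).1 h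
  · intro h
    exact (RingCon.eq (con n)).2 h

/-- the image in the quotient ring -/
noncomputable def qs (i : Fin 2) : (con 2).Quotient := (con 2).mk' (sg i)

theorem qs_sq (i : Fin 2) : qs i * qs i = 1 := by
  unfold qs
  rw [← map_mul, ← map_one (con 2).mk', con_iff]
  intro u w
  exact h0_sq i u w

theorem qs_braid : qs 0 * qs 1 * qs 0 = qs 1 * qs 0 * qs 1 := by
  unfold qs
  rw [← map_mul, ← map_mul, ← map_mul, ← map_mul, con_iff]
  intro u w
  exact congrArg (PowerSeries.constantCoeff (R := ℂ)) (HH_braid 0 1 rfl u w)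

end Pool.Agent.N518.KT
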