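import Pool.Agent.N518.KT.Univ

/-!
# Families of knots given by polynomials
-/

set_option autoImplicit false

namespace Pool.Agent.N518.KT

open Pool.Agent.V11208.FT

/-- The braid word (with three strands) `σ₁ σ₂ ∏ [σ₁^{2 e_1}, [σ₁^{2 e_2}, ⋯ [σ₁^{2 e_{n-1}}, σ₂^{2 e_n}]]]^c`, the
product over the elements `(c, (e_1, …, e_n))` of the list `D`; the formal exponents `e_i` are `1` or variables, for
which the integers `q` are substituted. (The word is reduced by cancellations.) -/
def word {k : ℕ} (D : List (ℤ × List (Option (Fin k)))) (q : Fin k → ℤ) : Word 2 :=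
  (FreeGroup.mk bw * prodNest (sq 0) (sq 1) D q).toWord

theorem isKnot_word {k : ℕ} (D : List (ℤ × List (Option (Fin k)))) (q : Fin k → ℤ) :
    IsKnot (word D q) := by
  refine (isKnot_congr ?_).2 isKnot_bw
  rw [word, pmG_toWord, map_mul, pmG_prodNest, mul_one, pmG_mk]

/-- The knot which is the closure of the braid word. -/
def knot {k : ℕ} (D : List (ℤ × List (Option (Fin k)))) (q : Fin k → ℤ) : Knot :=
  closure (word D q) (isKnot_word D q)

/-- All iterated commutators in the list have `n` entries. -/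
def Entries {k : ℕ} (n : ℕ) (D : List (ℤ × List (Option (Fin k)))) : Prop :=
  ∀ p ∈ D, p.2.length = n

theorem knot_nil : knot ([] : List (ℤ × List (Option (Fin 0)))) Fin.elim0 = unknot := by
  rw [← closure_bw]
  unfold knot
  refine closure_congr _ isKnot_bw ?_
  rw [word, FreeGroup.mk_toWord]
  simp [prodNest]

theorem knot_unknot {A : Type*} [AddCommGroup A] (v : Knot → A) :
    vG v 2 (FreeGroup.mk bw) = v unknot := by
  rw [← closure_bw, ← val_of v isKnot_bw]
  rfl

theorem vG_knot {A : Type*} [AddCommGroup A] (v : Knot → A) {k : ℕ}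
    (D : List (ℤ × List (Option (Fin k)))) (q : Fin k → ℤ) :
    vG v 2 (FreeGroup.mk bw * prodNest (sq 0) (sq 1) D q) = v (knot D q) :=
  vG_toWord v (isKnot_word D q)

theorem lead_fam {n k : ℕ} (D : List (ℤ × List (Option (Fin k)))) (hD : Entries (n + 1) D)
    (q : Fin k → ℤ) :
    Lead (io 2) (Tf 2) (n + 1) (value D q • adr (sqX 0) (sqX 1) n)
      (prodNest (sq 0) (sq 1) D q) :=
  lead_prodNest (filt 2) (lead_sq 0) (lead_sq 1) D hD q

theorem low {n k : ℕ} {D : List (ℤ × List (Option (Fin k)))} (hD : Entries (n + 1) D)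
    (q : Fin k → ℤ) {A : Type*} [AddCommGroup A] {M : ℕ} {v : Knot → A} (hM : M < n + 1)
    (hv : DegreeLE M v) : v (knot D q) = v unknot := by
  rw [← vG_knot v D q, ← knot_unknot v]
  exact lead_val_lt hv hM (lead_fam D hD q) _

/-- the value of the leading term -/
noncomputable def topv {A : Type*} [AddCommGroup A] (v : Knot → A) (n : ℕ) : A :=
  ext (vG v 2) (io 2 (FreeGroup.mk bw) * adr (sqX 0) (sqX 1) n)

theorem top {n k : ℕ} {D : List (ℤ × List (Option (Fin k)))} (hD : Entries (n + 1) D)
    (q : Fin k → ℤ) {A : Type*} [AddCommGroup A] {v : Knot → A}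
    (hv : DegreeLE (n + 1) v) : v (knot D q) - v unknot = value D q • topv v n := by
  rw [← vG_knot v D q, ← knot_unknot v, lead_val hv (lead_fam D hD q), mul_smul_comm, map_zsmul]
  rfl

/-- the list of the knot `K₁` -/
def one (n : ℕ) : List (ℤ × List (Option (Fin 0))) := [(1, List.replicate (n + 1) none)]

theorem one_entries (n : ℕ) : Entries (n + 1) (one n) := by
  intro p hp
  rw [one, List.mem_singleton] at hp
  rw [hp, List.length_replicate]

theorem one_value (n : ℕ) (q : Fin 0 → ℤ) : value (one n) q = 1 := by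
  simp [value, one, expt]

theorem cw_knot {j k : ℕ} {D : List (ℤ × List (Option (Fin k)))} (hD : Entries (2 * j + 1 + 1) D)
    (q : Fin k → ℤ) : cw (2 * j + 1 + 1) (knot D q) =
      cw (2 * j + 1 + 1) unknot + (-2) ^ (2 * j + 1 + 1) * 4 ^ j * value D q := by
  have h1 := cw_value (X := value D q • adr (sqX 0) (sqX 1) (2 * j + 1))
    (Y := value D q • adr (sg 0) (sg 1) (2 * j + 1)) (γ := value D q * 4 ^ j)
    (lead_fam D hD q) ?_ ?_ (isKnot_word D q)
  · refine h1.trans ?_
    push_cast
    ring
  · intro u w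
    rw [mul_smul_comm, smul_mul_assoc, map_zsmul, rel_adr (2 * j + 1) u w, mul_smul_comm,
      smul_mul_assoc, map_zsmul, mul_smul_comm]
  · rw [map_zsmul, adr_map, mul_smul]
    congr 1
    exact adr_odd (qs_sq 0) j

end Pool.Agent.N518.KT
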