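import Pool.Agent.N518.KT.Alg

/-!
# The knots
-/

set_option autoImplicit false

namespace Pool.Agent.N518.KT

open Pool.Agent.V11208.FT

/-! ### permutations -/

theorem perm_step {n : ℕ} (u w : Word n) (i : Fin n) (e : Bool) :
    perm (u ++ (i, e) :: (i, !e) :: w) = perm (u ++ w) := perm_cancel u w i e (!e)

/-- the permutation of an element of the free group -/
def pmG (n : ℕ) : FreeGroup (Fin n) →* Equiv.Perm (Fin (n + 1)) where
  toFun := lft perm perm_step
  map_one' := rfl
  map_mul' := by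
    intro x y
    induction x using Quot.inductionOn with
    | h a =>
      induction y using Quot.inductionOn with
      | h b => exact perm_append a b

theorem pmG_mk {n : ℕ} (w : Word n) : pmG n (FreeGroup.mk w) = perm w := rfl

theorem pmG_toWord {n : ℕ} (g : FreeGroup (Fin n)) : perm g.toWord = pmG n g := by
  rw [← pmG_mk, FreeGroup.mk_toWord]

theorem pmG_sq {n : ℕ} (i : Fin n) : pmG n (sq i) = 1 := by
  unfold sq
  rw [pmG_mk, perm, perm, perm, mul_one, adj_mul_self]

/-! ### closures -/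

open Classical in
/-- the closure, if it is a knot -/
noncomputable def clo {n : ℕ} (w : Word n) : Option Knot :=
  if h : IsKnot w then some (closure w h) else none

theorem clo_step {n : ℕ} (u w : Word n) (i : Fin n) (e : Bool) :
    clo (u ++ (i, e) :: (i, !e) :: w) = clo (u ++ w) := by
  have hp : perm (u ++ (i, e) :: (i, !e) :: w) = perm (u ++ w) := perm_step u w i e
  by_cases h : IsKnot (u ++ w)
  · have h' : IsKnot (u ++ (i, e) :: (i, !e) :: w) := (isKnot_congr hp).2 h
    rw [clo, dif_pos h', clo, dif_pos h]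
    exact congrArg some (Quot.sound (Move.cancel n u w i e _ h' h))
  · have h' : ¬ IsKnot (u ++ (i, e) :: (i, !e) :: w) := fun h1 => h ((isKnot_congr hp).1 h1)
    rw [clo, dif_neg h', clo, dif_neg h]

theorem closure_congr {n : ℕ} {w w' : Word n} (h : IsKnot w) (h' : IsKnot w')
    (e : FreeGroup.mk w = FreeGroup.mk w') : closure w h = closure w' h' := by
  have h1 : lft clo clo_step (FreeGroup.mk w) = lft clo clo_step (FreeGroup.mk w') := by rw [e]
  have h2 : clo w = clo w' := h1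
  rw [clo, dif_pos h, clo, dif_pos h'] at h2
  exact Option.some.inj h2

theorem vG_toWord {A : Type*} [AddCommGroup A] (v : Knot → A) {n : ℕ} {g : FreeGroup (Fin n)}
    (h : IsKnot g.toWord) : vG v n g = v (closure g.toWord h) := by
  rw [← val_of v h, ← vG_mk, FreeGroup.mk_toWord]

theorem isKnot_nil : IsKnot ([] : Word 0) := by
  refine ⟨fun b => ⟨0, Subsingleton.elim _ _⟩, fun a b => ?_⟩
  have : a = b := Subsingleton.elim (α := Fin 1) a b
  subst this
  exact ⟨fun _ => Equiv.Perm.SameCycle.refl _ _, fun _ => rfl⟩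

/-- The unknot: the closure of the trivial braid with one strand. -/
def unknot : Knot := closure ([] : Word 0) isKnot_nil

/-- the word `σ₁ σ₂` -/
def bw : Word 2 := [(0, true), (1, true)]

theorem isKnot_bw : IsKnot bw := by
  refine ⟨fun b => ⟨0, Subsingleton.elim _ _⟩, fun a b => ?_⟩
  have h : ∀ a b : Fin 3, (perm bw).SameCycle a b := by decide
  simp [h a b]

theorem isKnot_one : IsKnot ([(0, true)] : Word 1) := by
  refine ⟨fun b => ⟨0, Subsingleton.elim _ _⟩, fun a b => ?_⟩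
  have h : ∀ a b : Fin 2, (perm ([(0, true)] : Word 1)).SameCycle a b := by decide
  simp [h a b]

theorem stab_eq {n : ℕ} (w : Word n) (e : Bool) (h : IsKnot w)
    (h' : IsKnot (w.map (fun l => (l.1.castSucc, l.2)) ++ [(Fin.last n, e)])) :
    closure _ h' = closure w h := by
  have e1 : (Fin.snoc (α := fun _ => Fin 1) (fun _ : Fin (n + 1) => (0 : Fin 1)) (0 : Fin 1) :
      Fin (n + 2) → Fin 1) = fun _ => 0 := funext fun _ => Subsingleton.elim _ _
  have h2 : Closes (w.map (fun l => (l.1.castSucc, l.2)) ++ [(Fin.last n, e)])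
      (Fin.snoc (α := fun _ => Fin 1) (fun _ : Fin (n + 1) => (0 : Fin 1)) (0 : Fin 1)) := by
    rw [e1]; exact h'
  have h3 := Quot.sound (Move.stab n w e (fun _ => (0 : Fin 1)) h h2)
  unfold closure
  rw [h3]
  congr 2
  exact funext fun _ => Subsingleton.elim _ _

theorem closure_bw : closure bw isKnot_bw = unknot := by
  have h1 := stab_eq ([(0, true)] : Word 1) true isKnot_one isKnot_bw
  have h2 := stab_eq ([] : Word 0) true isKnot_nil isKnot_one
  exact h1.trans h2

/-! ### the two sequences of braids -/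

/-- the pairs `(a_n, b_n)`: `a_{n+1} = b_n⁻¹ a_n b_n a_n⁻¹`, `b_{n+1} = a_n b_n a_n⁻¹ b_n⁻¹` -/
def pr {G : Type*} [Group G] (a b : G) : ℕ → G × G
  | 0 => (a, b)
  | (n + 1) => ((pr a b n).2⁻¹ * (pr a b n).1 * (pr a b n).2 * (pr a b n).1⁻¹,
      (pr a b n).1 * (pr a b n).2 * (pr a b n).1⁻¹ * (pr a b n).2⁻¹)

theorem pr_fst {G : Type*} [Group G] (a b : G) (n : ℕ) :
    (pr a b (n + 1)).1 = (pr a b n).2⁻¹ * (pr a b (n + 1)).2 * (pr a b n).2 := by
  simp only [pr]
  group

theorem pr_snd {G : Type*} [Group G] (a b : G) (n : ℕ) :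
    (pr a b (n + 2)).2 = (pr a b (n + 1)).2 *
      cm (cm (pr a b (n + 1)).2⁻¹ (pr a b n).2⁻¹) (pr a b (n + 1)).2 * (pr a b (n + 1)).2⁻¹ := by
  have e : (pr a b (n + 2)).2 = (pr a b (n + 1)).1 * (pr a b (n + 1)).2 * (pr a b (n + 1)).1⁻¹ *
    (pr a b (n + 1)).2⁻¹ := rfl
  rw [e, pr_fst]
  unfold cm
  group

/-- the degrees `1, 2, 5, 12, 29, 70, …` -/
def dg : ℕ → ℕ
  | 0 => 1
  | 1 => 2
  | (n + 2) => 2 * dg (n + 1) + dg n

theorem dg_pos (n : ℕ) : 1 ≤ dg n := by
  induction n using Nat.twoStepInduction with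
  | zero => exact le_rfl
  | one => decide
  | more n h1 h2 => rw [dg]; omega

/-- **the leading terms** -/
theorem lead_pr {G R : Type*} [Group G] [Ring R] {ι : G →* R} {T : ℕ → Submodule ℤ R}
    (h : Filt ι T) {a b : G} {A B : R} (ha : Lead ι T 1 A a) (hb : Lead ι T 1 B b) (n : ℕ) :
    Lead ι T (dg n) (rec A B n) (pr a b n).2 := by
  have key : ∀ n, Lead ι T (dg n) (rec A B n) (pr a b n).2 ∧
      Lead ι T (dg (n + 1)) (rec A B (n + 1)) (pr a b (n + 1)).2 := by
    intro n
    induction n with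
    | zero => exact ⟨hb, ha.comm h le_rfl le_rfl hb⟩
    | succ n ih =>
      refine ⟨ih.2, ?_⟩
      obtain ⟨h0, h1⟩ := ih
      have hx := h1.inv h (dg_pos _)
      have hy := h0.inv h (dg_pos _)
      have h2 := hx.comm h (dg_pos _) (dg_pos _) hy
      have h3 := h2.comm h (by have := dg_pos n; omega) (dg_pos _) h1
      have h4 := h3.conj h (x := (pr a b (n + 1)).2) (h.le (dg_pos _) (h1.diff h))
      rw [← pr_snd] at h4
      have e : dg (n + 1) + dg n + dg (n + 1) = dg (n + 1 + 1) := by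
        show _ = 2 * dg (n + 1) + dg n
        ring
      rw [e] at h4
      refine h4.congr ?_
      show _ = cr (cr (rec A B (n + 1)) (rec A B n)) (rec A B (n + 1))
      unfold cr
      noncomm_ring
  exact (key n).1

/-- the lengths `2, 8, 28, 104, …` -/
def ln : ℕ → ℕ
  | 0 => 2
  | 1 => 8
  | (n + 2) => 2 * ln (n + 1) + 6 * ln n

theorem norm_pr {n : ℕ} {a b : FreeGroup (Fin n)} (ha : a.norm ≤ 2) (hb : b.norm ≤ 2) (k : ℕ) :
    (pr a b k).1.norm ≤ ln k ∧ (pr a b k).2.norm ≤ ln k := by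
  have m3 : ∀ x y z : FreeGroup (Fin n), (x * y * z).norm ≤ x.norm + y.norm + z.norm := fun x y z =>
    (FreeGroup.norm_mul_le _ _).trans (Nat.add_le_add_right (FreeGroup.norm_mul_le _ _) _)
  have key : ∀ k, ((pr a b k).1.norm ≤ ln k ∧ (pr a b k).2.norm ≤ ln k) ∧
      ((pr a b (k + 1)).1.norm ≤ ln (k + 1) ∧ (pr a b (k + 1)).2.norm ≤ ln (k + 1)) := by
    intro k
    induction k with
    | zero =>
      refine ⟨⟨ha, hb⟩, ?_, ?_⟩
      · have h1 := m3 b⁻¹ a b
        have h2 := FreeGroup.norm_mul_le (b⁻¹ * a * b) a⁻¹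
        rw [FreeGroup.norm_inv_eq] at h1 h2
        have e : (pr a b (0 + 1)).1 = b⁻¹ * a * b * a⁻¹ := rfl
        rw [e]
        show _ ≤ 8
        omega
      · have h1 := m3 a b a⁻¹
        have h2 := FreeGroup.norm_mul_le (a * b * a⁻¹) b⁻¹
        rw [FreeGroup.norm_inv_eq] at h1 h2
        have e : (pr a b (0 + 1)).2 = a * b * a⁻¹ * b⁻¹ := rfl
        rw [e]
        show _ ≤ 8
        omega
    | succ k ih =>
      refine ⟨ih.2, ?_⟩
      obtain ⟨⟨i1, i2⟩, i3, i4⟩ := ih
      set x := (pr a b k).1 with hx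
      set y := (pr a b k).2 with hy
      set x' := (pr a b (k + 1)).1 with hx'
      set y' := (pr a b (k + 1)).2 with hy'
      have e1 : x' = y⁻¹ * x * y * x⁻¹ := rfl
      have e2 : y' = x * y * x⁻¹ * y⁻¹ := rfl
      have e3 : x' * y' = (y⁻¹ * x * y) * (y * x⁻¹ * y⁻¹) := by
        rw [e1, e2]; group
      have h1 := m3 y⁻¹ x y
      have h2 := m3 y x⁻¹ y⁻¹
      have h3 := FreeGroup.norm_mul_le (y⁻¹ * x * y) (y * x⁻¹ * y⁻¹)
      rw [← e3] at h3
      simp only [FreeGroup.norm_inv_eq] at h1 h2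
      have e4 : ln (k + 1 + 1) = 2 * ln (k + 1) + 6 * ln k := rfl
      constructor
      · have e5 : (pr a b (k + 1 + 1)).1 = y'⁻¹ * (x' * y') * x'⁻¹ := by
          show y'⁻¹ * x' * y' * x'⁻¹ = _
          group
        rw [e5, e4]
        have h4 := m3 y'⁻¹ (x' * y') x'⁻¹
        simp only [FreeGroup.norm_inv_eq] at h4
        omega
      · have e5 : (pr a b (k + 1 + 1)).2 = (x' * y') * x'⁻¹ * y'⁻¹ := rfl
        rw [e5, e4]
        have h4 := m3 (x' * y') x'⁻¹ y'⁻¹
        simp only [FreeGroup.norm_inv_eq] at h4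
        omega
  exact (key k).1

theorem norm_zpow_le {n : ℕ} (g : FreeGroup (Fin n)) (q : ℤ) : (g ^ q).norm ≤ q.natAbs * g.norm := by
  have hn : ∀ k : ℕ, (g ^ k).norm ≤ k * g.norm := by
    intro k
    induction k with
    | zero => simp
    | succ k ih =>
      rw [pow_succ]
      have := FreeGroup.norm_mul_le (g ^ k) g
      nlinarith
  obtain ⟨k, rfl | rfl⟩ := q.eq_nat_or_neg
  · simpa using hn k
  · rw [zpow_neg, FreeGroup.norm_inv_eq, zpow_natCast, Int.natAbs_neg, Int.natAbs_natCast]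
    exact hn k

theorem pmG_pr (k : ℕ) : pmG 2 (pr (sq 0) (sq 1) k).1 = 1 ∧ pmG 2 (pr (sq 0) (sq 1) k).2 = 1 := by
  induction k with
  | zero => exact ⟨pmG_sq 0, pmG_sq 1⟩
  | succ k ih => simp only [pr, map_mul, map_inv, ih.1, ih.2]; simp

end Pool.Agent.N518.KT
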