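import Pool.Agent.N518.KT.Knots

/-!
# Degrees and lengths
-/

set_option autoImplicit false

namespace Pool.Agent.N518.KT

theorem dg_ratio (n : ℕ) : 12 * dg (n + 1) ≤ 5 * dg (n + 2) ∧ 2 * dg (n + 2) ≤ 5 * dg (n + 1) := by
  induction n with
  | zero => decide
  | succ n ih =>
    have e : dg (n + 1 + 2) = 2 * dg (n + 2) + dg (n + 1) := rfl
    rw [e]
    have e2 : n + 1 + 1 = n + 2 := rfl
    rw [e2]
    omega

theorem ln_ratio (n : ℕ) : 7 * ln (n + 2) ≤ 26 * ln (n + 1) ∧ 7 * ln (n + 1) ≤ 2 * ln (n + 2) := by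
  induction n with
  | zero => decide
  | succ n ih =>
    have e : ln (n + 1 + 2) = 2 * ln (n + 2) + 6 * ln (n + 1) := rfl
    rw [e]
    have e2 : n + 1 + 1 = n + 2 := rfl
    rw [e2]
    omega

theorem ln_dg (n : ℕ) : ln (n + 1) ^ 2 ≤ 8 * dg (n + 1) ^ 3 := by
  induction n with
  | zero => decide
  | succ n ih =>
    have h1 := (dg_ratio n).1
    have h2 := (ln_ratio n).1
    have h3 : (12 * dg (n + 1)) ^ 3 ≤ (5 * dg (n + 2)) ^ 3 := Nat.pow_le_pow_left h1 3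
    have h4 : (7 * ln (n + 2)) ^ 2 ≤ (26 * ln (n + 1)) ^ 2 := Nat.pow_le_pow_left h2 2
    have e2 : n + 1 + 1 = n + 2 := rfl
    rw [e2]
    ring_nf at h3 h4 ih ⊢
    have e3 : ∀ a b : ℕ, a = b → b = a := fun _ _ h => h.symm
    omega

theorem ln_two (n : ℕ) : ln (n + 3) ^ 2 ≤ 1444 * dg (n + 1) ^ 3 := by
  have h1 := (ln_ratio n).1
  have h3 := ln_dg n
  have e : ln (n + 3) = 2 * ln (n + 2) + 6 * ln (n + 1) := rfl
  have h4 : 7 * ln (n + 3) ≤ 94 * ln (n + 1) := by omega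
  have h5 : (7 * ln (n + 3)) ^ 2 ≤ (94 * ln (n + 1)) ^ 2 := Nat.pow_le_pow_left h4 2
  ring_nf at h5 h3 ⊢
  omega

theorem dg_two (n : ℕ) : dg (n + 3) ≤ 6 * dg (n + 1) := by
  have h1 := (dg_ratio n).2
  have e : dg (n + 3) = 2 * dg (n + 2) + dg (n + 1) := rfl
  omega

theorem dg_gt (n : ℕ) : n < dg n := by
  have key : ∀ n, n < dg n ∧ n + 1 < dg (n + 1) := by
    intro n
    induction n with
    | zero => decide
    | succ n ih =>
      refine ⟨ih.2, ?_⟩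
      have e : dg (n + 1 + 1) = 2 * dg (n + 1) + dg n := rfl
      rw [e]
      omega
  exact (key n).1

theorem choose_index (N : ℕ) (hN : 1 ≤ N) : ∃ k, N < dg (2 * k + 1) ∧ dg (2 * k + 1) ≤ 6 * N ∧
    ln (2 * k + 1) ^ 2 ≤ 1444 * N ^ 3 := by
  classical
  have hex : ∃ k, N < dg (2 * k + 1) := ⟨N, by have := dg_gt (2 * N + 1); omega⟩
  set k := Nat.find hex with hk
  have h1 : N < dg (2 * k + 1) := Nat.find_spec hex
  refine ⟨k, h1, ?_⟩
  rcases Nat.eq_zero_or_pos k with h0 | h0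
  · rw [h0]
    have e1 : dg (2 * 0 + 1) = 2 := rfl
    have e2 : ln (2 * 0 + 1) = 8 := rfl
    rw [e1, e2]
    have : 1 ≤ N ^ 3 := Nat.one_le_pow _ _ hN
    omega
  · obtain ⟨j, hj⟩ : ∃ j, k = j + 1 := ⟨k - 1, by omega⟩
    have h2 : ¬ N < dg (2 * j + 1) := Nat.find_min hex (by omega)
    have e : 2 * k + 1 = 2 * j + 3 := by omega
    rw [e]
    have h3 := dg_two (2 * j)
    have h4 := ln_two (2 * j)
    have h5 : dg (2 * j + 1) ^ 3 ≤ N ^ 3 := Nat.pow_le_pow_left (by omega) 3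
    constructor <;> omega

theorem ln_real {N L : ℕ} (h : L ^ 2 ≤ 1444 * N ^ 3) :
    (L : ℝ) ≤ 38 * (N : ℝ) ^ (3 / 2 : ℝ) := by
  have h0 : (0 : ℝ) ≤ 38 * (N : ℝ) ^ (3 / 2 : ℝ) := by positivity
  have h1 : ((N : ℝ) ^ (3 / 2 : ℝ)) ^ 2 = (N : ℝ) ^ 3 := by
    rw [← Real.rpow_natCast, ← Real.rpow_mul (by positivity)]
    norm_num
  have h2 : (L : ℝ) ^ 2 ≤ (38 * (N : ℝ) ^ (3 / 2 : ℝ)) ^ 2 := by
    rw [mul_pow, h1]
    have : ((L ^ 2 : ℕ) : ℝ) ≤ ((1444 * N ^ 3 : ℕ) : ℝ) := by exact_mod_cast h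
    push_cast at this
    linarith
  exact (pow_le_pow_iff_left₀ (by positivity) h0 two_ne_zero).1 h2

end Pool.Agent.N518.KT
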