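import Pool.Agent.N518.KT.Value

/-!
# Polynomials as leading coefficients of products of iterated commutators
-/

set_option autoImplicit false

namespace Pool.Agent.N518.KT

open Pool.Agent.V11208.FT

/-- The iterated commutator `[a ^ e_1, [a ^ e_2, ⋯ [a ^ e_{n-1}, b ^ e_n]]]`. -/
def nest {G : Type*} [Group G] (a b : G) : List ℤ → G
  | [] => 1
  | [m] => b ^ m
  | e :: (e' :: l) => cm (a ^ e) (nest a b (e' :: l))

/-- The value of a formal exponent: `1` or a variable. -/
def expt {k : ℕ} (q : Fin k → ℤ) : Option (Fin k) → ℤ
  | none => 1
  | some i => q i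

/-- The product of the powers (exponent `p.1`) of the iterated commutators with the formal exponents
`p.2`, for the elements `p` of the list. -/
def prodNest {G : Type*} [Group G] (a b : G) {k : ℕ} (D : List (ℤ × List (Option (Fin k))))
    (q : Fin k → ℤ) : G :=
  (D.map fun p => nest a b (p.2.map (expt q)) ^ p.1).prod

/-- The polynomial function of the list. -/
def value {k : ℕ} (D : List (ℤ × List (Option (Fin k)))) (q : Fin k → ℤ) : ℤ :=
  (D.map fun p => p.1 * (p.2.map (expt q)).prod).sum

section

variable {G R : Type*} [Group G] [Ring R] {ι : G →* R} {T : ℕ → Submodule ℤ R}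

theorem lead_nest (h : Filt ι T) {a b : G} {A B : R} (ha : Lead ι T 1 A a) (hb : Lead ι T 1 B b)
    (e : ℤ) (l : List ℤ) :
    Lead ι T (l.length + 1) ((e :: l).prod • adr A B l.length) (nest a b (e :: l)) := by
  induction l generalizing e with
  | nil => simpa [nest, adr] using hb.zpow h le_rfl e
  | cons e' l ih =>
    have h1 := (ha.zpow h le_rfl e).comm h le_rfl (by omega) (ih e')
    have e1 : 1 + (l.length + 1) = (e' :: l).length + 1 := by rw [List.length_cons]; omega
    rw [e1] at h1
    refine h1.congr ?_
    rw [List.length_cons]
    show _ = _ • cr A (adr A B l.length)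
    unfold cr
    rw [List.prod_cons (a := e), smul_mul_smul_comm, smul_mul_smul_comm, mul_comm _ e, smul_sub]

theorem lead_prodNest (h : Filt ι T) {a b : G} {A B : R} (ha : Lead ι T 1 A a)
    (hb : Lead ι T 1 B b) {n k : ℕ} (D : List (ℤ × List (Option (Fin k))))
    (hD : ∀ p ∈ D, p.2.length = n + 1) (q : Fin k → ℤ) :
    Lead ι T (n + 1) (value D q • adr A B n) (prodNest a b D q) := by
  induction D with
  | nil => simpa [value, prodNest] using Lead.one h (n + 1)
  | cons p D ih =>
    have h1 := ih fun x hx => hD x (List.mem_cons_of_mem _ hx)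
    have h2 : Lead ι T (n + 1) ((p.1 * (p.2.map (expt q)).prod) • adr A B n)
        (nest a b (p.2.map (expt q)) ^ p.1) := by
      have hp := hD p (List.mem_cons_self)
      obtain ⟨c, L⟩ := p
      rcases L with _ | ⟨e, L⟩
      · simp at hp
      · have h3 := lead_nest h ha hb (expt q e) (L.map (expt q))
        rw [List.length_map] at h3
        have h4 : L.length = n := by simpa using hp
        rw [h4] at h3
        have h5 := h3.zpow h (by omega) c
        rw [smul_smul] at h5
        simpa using h5
    have h3 := h2.mul h (by omega) h1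
    refine h3.congr ?_
    rw [← add_smul]
    rfl

end

/-- every polynomial of degree at most `n` is the function of a list -/
theorem exists_list {k : ℕ} (n : ℕ) (P : MvPolynomial (Fin k) ℤ) (hP : P.totalDegree ≤ n) :
    ∃ D : List (ℤ × List (Option (Fin k))), (∀ p ∈ D, p.2.length = n) ∧
      ∀ q, value D q = MvPolynomial.eval q P := by
  classical
  let L : (Fin k →₀ ℕ) → List (Option (Fin k)) := fun d =>
    (List.finRange k).flatMap (fun i => List.replicate (d i) (some i)) ++
      List.replicate (n - ∑ i, d i) none
  have hlen : ∀ d ∈ P.support, (L d).length = n := by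
    intro d hd
    have h1 : ((List.finRange k).flatMap (fun i => List.replicate (d i) (some i))).length =
        ∑ i, d i := by
      rw [List.length_flatMap]
      simp only [List.length_replicate]
      rw [← Fin.sum_univ_def]
    have h2 : ∑ i, d i ≤ n := by
      have := MvPolynomial.le_totalDegree hd
      rw [Finsupp.sum_fintype _ _ (fun _ => rfl)] at this
      exact this.trans hP
    simp only [L, List.length_append, h1, List.length_replicate]
    omega
  have hprod : ∀ (d : Fin k →₀ ℕ) (q : Fin k → ℤ), ((L d).map (expt q)).prod = ∏ i, q i ^ d i := by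
    intro d q
    simp only [L, List.map_append, List.prod_append, List.map_replicate, List.prod_replicate]
    have h1 : expt q none = 1 := rfl
    rw [h1, one_pow, mul_one, List.map_flatMap]
    have h2 : ∀ l : List (Fin k), (l.flatMap fun i => List.map (expt q) (List.replicate (d i) (some i))).prod =
        (l.map fun i => q i ^ d i).prod := by
      intro l
      induction l with
      | nil => rfl
      | cons i l ih =>
        rw [List.flatMap_cons, List.prod_append, ih, List.map_cons, List.prod_cons,
          List.map_replicate, List.prod_replicate]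
        rfl
    rw [h2, ← Fin.prod_univ_def]
  refine ⟨P.support.toList.map fun d => (P.coeff d, L d), ?_, ?_⟩
  · intro p hp
    rw [List.mem_map] at hp
    obtain ⟨d, hd, rfl⟩ := hp
    exact hlen d (Finset.mem_toList.1 hd)
  · intro q
    unfold value
    rw [List.map_map, MvPolynomial.eval_eq']
    have h1 : ((fun p : ℤ × List (Option (Fin k)) => p.1 * (p.2.map (expt q)).prod) ∘
        fun d => (P.coeff d, L d)) = fun d => P.coeff d * ∏ i, q i ^ d i := by
      funext d
      simp only [Function.comp_apply, hprod]
    rw [h1, Finset.sum_map_toList]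

theorem rel_adr (m : ℕ) : Rel (m + 1) (adr (sqX (0 : Fin 2)) (sqX 1) m) (adr (sg 0) (sg 1) m) := by
  induction m with
  | zero => exact rel_sq 1
  | succ m ih =>
    have := (rel_sq (0 : Fin 2)).cr ih
    rw [add_comm 1 (m + 1)] at this
    exact this

theorem pmG_nest (l : List ℤ) : pmG 2 (nest (sq 0) (sq 1) l) = 1 := by
  induction l with
  | nil => simp [nest]
  | cons e l ih =>
    rcases l with _ | ⟨e', l⟩
    · simp [nest, pmG_sq]
    · simp only [nest, cm, map_mul, map_inv, map_zpow, pmG_sq] at ih ⊢
      simp [ih]

theorem pmG_prodNest {k : ℕ} (D : List (ℤ × List (Option (Fin k)))) (q : Fin k → ℤ) :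
    pmG 2 (prodNest (sq 0) (sq 1) D q) = 1 := by
  unfold prodNest
  induction D with
  | nil => simp
  | cons p D ih => rw [List.map_cons, List.prod_cons, map_mul, ih, map_zpow, pmG_nest]; simp

end Pool.Agent.N518.KT
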