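import Pool.Agent.N518.KT.Knots

/-!
# Values of the coefficients of the Conway polynomial
-/

set_option autoImplicit false

namespace Pool.Agent.N518.KT

open Pool.Agent.V11208.FT

/-- The coefficient of `x ^ d` of the Conway polynomial of the knot, where `z = (1 + x)⁻¹ - (1 + x)`. -/
noncomputable def cw (d : ℕ) (K : Knot) : ℂ := PowerSeries.coeff (R := ℂ) d (conwL 1 K)

theorem cw_closure (d : ℕ) {n : ℕ} {w : Word n} (h : IsKnot w) :
    cw d (closure w h) = PowerSeries.coeff (R := ℂ) d (conw w) := rfl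

theorem degree_cw (d : ℕ) : DegreeLE d (cw d) := by
  intro n S hS
  by_cases hc : ∃ w : Word n, perm w = sperm S ∧ IsKnot w
  · obtain ⟨w₀, hw₀, hc₀⟩ := hc
    have h1 : res (val (cw d)) S = res (fun w => (PowerSeries.coeff (R := ℂ) d).toAddMonoidHom
        (conw ([] ++ w))) S := by
      apply res_congr
      intro w hw
      have hk : IsKnot w := (isKnot_congr (hw.trans hw₀.symm)).2 hc₀
      rw [val_of _ hk]
      rfl
    rw [h1, res_hom, res_conw]
    have h2 : (PowerSeries.X : PowerSeries ℂ) ^ (d + 1) ∣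
        zz ^ doublePoints S * conw ([] ++ smooth S) := by
      apply dvd_mul_of_dvd_left
      exact (pow_dvd_pow _ hS).trans (pow_dvd_pow_of_dvd X_dvd_zz _)
    exact PowerSeries.X_pow_dvd_iff.mp h2 d (by omega)
  · apply res_zero
    intro w hw
    rw [val, dif_neg]
    exact fun hcl => hc ⟨w, hw, hcl⟩

/-- the leading coefficient of `z` -/
theorem zz_fac : ∃ z1 : PowerSeries ℂ, zz = PowerSeries.X * z1 ∧
    PowerSeries.constantCoeff (R := ℂ) z1 = -2 := by
  obtain ⟨z1, h1⟩ := X_dvd_zz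
  refine ⟨z1, h1, ?_⟩
  have h2 : (sU : PowerSeries ℂ) * ((sU⁻¹ : (PowerSeries ℂ)ˣ) : PowerSeries ℂ) = 1 :=
    Units.mul_inv _
  have h3 : (sU : PowerSeries ℂ) * zz = 1 - sU * sU := by
    rw [zz, mul_sub, h2]
  rw [h1, sU_val] at h3
  have h4 : (PowerSeries.X : PowerSeries ℂ) * ((1 + PowerSeries.X) * z1 + 2 + PowerSeries.X) = 0 := by
    linear_combination h3
  have h5 : (1 + PowerSeries.X) * z1 + 2 + PowerSeries.X = (0 : PowerSeries ℂ) := by
    rcases mul_eq_zero.1 h4 with h | h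
    · exact absurd h PowerSeries.X_ne_zero
    · exact h
  have h6 := congrArg (PowerSeries.constantCoeff (R := ℂ)) h5
  simp only [map_add, map_mul, map_one, PowerSeries.constantCoeff_X, add_zero, one_mul,
    map_zero] at h6
  have h7 : PowerSeries.constantCoeff (R := ℂ) (2 : PowerSeries ℂ) = 2 := map_ofNat _ 2
  rw [h7] at h6
  linear_combination h6

theorem coeff_zz (d : ℕ) (P : PowerSeries ℂ) : PowerSeries.coeff (R := ℂ) d (zz ^ d * P) =
    (-2) ^ d * PowerSeries.constantCoeff (R := ℂ) P := by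
  obtain ⟨z1, h1, h2⟩ := zz_fac
  rw [h1, mul_pow, mul_assoc, PowerSeries.coeff_X_pow_mul' , if_pos le_rfl, Nat.sub_self,
    PowerSeries.coeff_zero_eq_constantCoeff_apply, map_mul, map_pow, h2]

/-! ### the two three-cycles -/

theorem h0_words {n : ℕ} (w : Word n) : h0 n (io n (FreeGroup.mk w)) =
    PowerSeries.constantCoeff (R := ℂ) (conw w) := by
  rw [h0_apply, HH_io, cG_mk]

theorem conw_nil : conw ([] : Word 0) = 1 := by
  unfold conw nab cc
  simp [Bur, e00, expo, Matrix.vecMulVec_apply]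

theorem conw_bw : conw bw = 1 := by
  have h1 := nab_stab sU ([(0, true)] : Word 1) true
  have h2 := nab_stab sU ([] : Word 0) true
  have e1 : conw bw = conw ([(0, true)] : Word 1) := h1
  have e2 : conw ([(0, true)] : Word 1) = conw ([] : Word 0) := h2
  rw [e1, e2, conw_nil]

theorem conw_three : conw ([] : Word 2) = 0 := by
  unfold conw nab cc
  have : (1 - Bur sU ([] : Word 2) + e00 (PowerSeries ℂ) 2).det = 0 := by
    apply Matrix.det_eq_zero_of_row_eq_zero 1
    intro j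
    simp [Bur, e00, Matrix.vecMulVec_apply, Pi.single_apply]
  rw [this, zero_mul]

theorem h0_value : h0 2 (io 2 (FreeGroup.mk bw) * (cr (sg 0) (sg 1))) = 1 := by
  have hb : io 2 (FreeGroup.mk bw) = sg 0 * sg 1 := by
    unfold sg
    rw [← map_mul, FreeGroup.mul_mk]
    rfl
  have h1 : h0 2 (sg 0 * sg 1 * (sg 0 * sg 1)) = 1 := by
    have e1 : sg 0 * sg 1 * (sg 0 * sg 1) = (1 : GR 2) * (sg 0 * sg 1 * sg 0) * sg 1 := by
      noncomm_ring
    have e2 := congrArg (PowerSeries.constantCoeff (R := ℂ)) (HH_braid (n := 2) 0 1 rfl 1 (sg 1))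
    rw [← h0_apply, ← h0_apply] at e2
    have e3 : (1 : GR 2) * (sg 1 * sg 0 * sg 1) * sg 1 = (sg 1 * sg 0) * (sg 1 * sg 1) * 1 := by
      noncomm_ring
    rw [e1, e2, e3, h0_sq]
    have e4 : (sg 1 * sg 0) * 1 * 1 = io 2 (FreeGroup.mk [(1, true), (0, true)]) := by
      rw [mul_one, mul_one]
      unfold sg
      rw [← map_mul, FreeGroup.mul_mk]
      rfl
    rw [e4, h0_words]
    have e5 : conw ([(1, true), (0, true)] : Word 2) = conw bw :=
      nab_conj sU ([(1, true)] : Word 2) [(0, true)]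
    rw [e5, conw_bw, map_one]
  have h2 : h0 2 (sg 0 * sg 1 * (sg 1 * sg 0)) = 0 := by
    have e1 : sg 0 * sg 1 * (sg 1 * sg 0) = sg 0 * (sg 1 * sg 1) * (sg 0 : GR 2) := by noncomm_ring
    have e2 : sg 0 * 1 * (sg 0 : GR 2) = 1 * (sg 0 * sg 0) * 1 := by noncomm_ring
    rw [e1, h0_sq, e2, h0_sq]
    have e3 : (1 * 1 * 1 : GR 2) = io 2 (FreeGroup.mk []) := by
      rw [mul_one, mul_one, ← FreeGroup.one_eq_mk, map_one]
    rw [e3, h0_words, conw_three, map_zero]
  rw [hb]
  unfold cr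
  rw [mul_sub, map_sub, h1, h2, sub_zero]

/-- **The coefficient**: if `X` is equivalent to `z ^ d Y` and `Y` is congruent to `γ [σ₁, σ₂]`. -/
theorem coeff_value {d : ℕ} {X Y : GR 2} (hr : Rel d X Y) {γ : ℤ}
    (hY : (con 2).mk' Y = γ • cr (qs 0) (qs 1)) :
    PowerSeries.coeff (R := ℂ) d (HH 2 (io 2 (FreeGroup.mk bw) * X)) = (-2) ^ d * γ := by
  have h1 := hr (io 2 (FreeGroup.mk bw)) 1
  rw [mul_one, mul_one] at h1
  rw [h1, coeff_zz]
  congr 1
  rw [← h0_apply]
  have h2 : (con 2).mk' Y = (con 2).mk' (γ • cr (sg 0) (sg 1)) := by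
    rw [hY, map_zsmul]
    unfold cr qs
    simp only [map_sub, map_mul]
  have h3 := con_iff.1 h2 (io 2 (FreeGroup.mk bw)) 1
  rw [mul_one, mul_one] at h3
  rw [h3, mul_smul_comm, map_zsmul, h0_value]
  simp

/-- **the coefficient of the knot** -/
theorem cw_value {d : ℕ} {X Y : GR 2} {g : FreeGroup (Fin 2)}
    (hg : Lead (io 2) (Tf 2) d X g) (hr : Rel d X Y) {γ : ℤ}
    (hY : (con 2).mk' Y = γ • cr (qs 0) (qs 1)) (hk : IsKnot (FreeGroup.mk bw * g).toWord) :
    cw d (closure _ hk) = cw d unknot + (-2) ^ d * γ := by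
  have h0 : cw d unknot = PowerSeries.coeff (R := ℂ) d (conw bw) := by
    rw [← closure_bw]; rfl
  rw [cw_closure, h0]
  have e1 : conw (FreeGroup.mk bw * g).toWord = HH 2 (io 2 (FreeGroup.mk bw * g)) := by
    rw [HH_io]
    conv_rhs => rw [← FreeGroup.mk_toWord (x := FreeGroup.mk bw * g)]
    rfl
  have e2 : conw bw = HH 2 (io 2 (FreeGroup.mk bw)) := by rw [HH_io]; rfl
  have e3 : io 2 (FreeGroup.mk bw * g) = io 2 (FreeGroup.mk bw) + io 2 (FreeGroup.mk bw) * X +
      io 2 (FreeGroup.mk bw) * (io 2 g - 1 - X) := by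
    rw [map_mul]
    noncomm_ring
  have e4 : PowerSeries.coeff (R := ℂ) d (HH 2 (io 2 (FreeGroup.mk bw) * (io 2 g - 1 - X))) = 0 := by
    have := HH_Tf ((filt 2).left ((filt 2).mem (FreeGroup.mk bw)) hg.2)
    exact PowerSeries.X_pow_dvd_iff.mp this d (by omega)
  rw [e1, e3, map_add, map_add, map_add, map_add, e4, coeff_value hr hY, e2, add_zero]

end Pool.Agent.N518.KT
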